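import Mathlib

namespace Pool.Agent.Results.MP_64c30f_co.Yes

open SimpleGraph Finset

variable {V : Type} [Fintype V] [DecidableEq V]

/-- with the cops at `C` to move and the robber at `r`, the cops can force a capture -/
inductive Win (G : SimpleGraph V) {k : ℕ} : (Fin k → V) → V → Prop
  | capture (C C' : Fin k → V) (r : V) : (∀ i, C' i = C i ∨ G.Adj (C i) (C' i)) → (∃ i, C' i = r) →
      Win G C r
  | step (C C' : Fin k → V) (r : V) : (∀ i, C' i = C i ∨ G.Adj (C i) (C' i)) →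
      (∀ r', r' = r ∨ G.Adj r r' → Win G C' r') → Win G C r

/-- the cop number -/
noncomputable def cop (G : SimpleGraph V) : ℕ := sInf {k | ∃ C : Fin k → V, ∀ r, Win G C r}

/-- a pebbling move -/
def Move (G : SimpleGraph V) (D D' : V → ℕ) : Prop :=
  ∃ u v, G.Adj u v ∧ 2 ≤ D u ∧ D' = D - Pi.single u 2 + Pi.single v 1

/-- the optimal pebbling number -/
noncomputable def peb (G : SimpleGraph V) : ℕ :=
  sInf {n | ∃ D : V → ℕ, ∑ v, D v = n ∧ ∀ r, ∃ D', Relation.ReflTransGen (Move G) D D' ∧ 1 ≤ D' r}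

def adj (x y : Fin 50) : Bool :=
  if x.1 / 5 = y.1 / 5 then
    (x.1 + (x.1 / 25 + 1)) % 5 == y.1 % 5 || (y.1 + (x.1 / 25 + 1)) % 5 == x.1 % 5
  else (x.1 < 25 && 25 ≤ y.1 && (x.1 / 5 * (y.1 / 5) + x.1) % 5 == y.1 % 5) ||
    (y.1 < 25 && 25 ≤ x.1 && (x.1 / 5 * (y.1 / 5) + y.1) % 5 == x.1 % 5)

def G : SimpleGraph (Fin 50) where
  Adj i j := adj i j
  symm := ⟨by decide +kernel⟩
  loopless := ⟨by decide +kernel⟩

instance : DecidableRel G.Adj := fun i j => inferInstanceAs (Decidable (adj i j = true))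

lemma rad : ∀ r, r = 0 ∨ G.Adj 0 r ∨ ∃ m, G.Adj 0 m ∧ G.Adj m r := by decide +kernel

lemma esc {k : ℕ} (hk : k ≤ 4) (C : Fin k → Fin 50) (r : Fin 50) (h : ∀ i, C i ≠ r) :
    ∃ x, G.Adj r x ∧ ∀ i, C i ≠ x ∧ ¬ G.Adj (C i) x := by
  have h1 : ∀ r c, c ≠ r → (univ.filter fun x => G.Adj r x ∧ (c = x ∨ G.Adj c x)).card ≤ 1 := by
    decide +kernel
  have h2 : ∀ r, (univ.filter fun x => G.Adj r x).card = 7 := by decide +kernel
  by_contra! c
  have := (card_le_card (show (univ.filter fun x => G.Adj r x) ⊆ univ.biUnion fun i =>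
    univ.filter fun x => G.Adj r x ∧ (C i = x ∨ G.Adj (C i) x) from fun x hx => by
      obtain ⟨i, hi⟩ := c x (by simpa using hx)
      exact mem_biUnion.2 ⟨i, mem_univ _, by simp at hx ⊢; tauto⟩)).trans
    (card_biUnion_le_card_mul _ _ 1 fun i _ => h1 r _ (h i))
  simp [h2] at this; omega

lemma safe {k : ℕ} (hk : k ≤ 4) {C : Fin k → Fin 50} {r : Fin 50} (h : Win G C r) :
    ¬ ∀ i, C i ≠ r ∧ ¬ G.Adj (C i) r := by
  induction h with
  | capture C C' r a b =>
    obtain ⟨i, rfl⟩ := b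
    exact fun h => (a i).elim (fun e => (h i).1 e.symm) (h i).2
  | step C C' r a _ ih =>
    intro h
    obtain ⟨x, h1, h2⟩ := esc hk C' r fun i e => (a i).elim (fun e' => (h i).1 (e'.symm.trans e))
      fun e' => (h i).2 (e ▸ e')
    exact ih x (.inr h1) h2

theorem result : ∃ (n : ℕ) (G : SimpleGraph (Fin n)), G.Connected ∧ peb G < cop G := by
  refine ⟨50, G, ⟨fun u v => ?_⟩, lt_of_le_of_lt (b := 4) (Nat.sInf_le ⟨Pi.single 0 4, by simp, fun r => ?_⟩)
    (Nat.lt_of_succ_le (le_csInf (s := {k | ∃ C : Fin k → Fin 50, ∀ r, Win G C r})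
      ⟨50, id, fun r => .capture _ id r (fun _ => .inl rfl) ⟨r, rfl⟩⟩ ?_))⟩
  · have h : ∀ r, G.Reachable 0 r := fun r => by
      rcases rad r with rfl | h | ⟨m, a, b⟩
      exacts [.rfl, h.reachable, a.reachable.trans b.reachable]
    exact (h u).symm.trans (h v)
  · rcases rad r with rfl | h | ⟨m, a, b⟩
    · exact ⟨_, .refl, by simp⟩
    · exact ⟨_, .single ⟨0, r, h, by simp, rfl⟩, by simp⟩
    · exact ⟨_, ((Relation.ReflTransGen.single ⟨0, m, a, by simp, rfl⟩).tail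
        ⟨0, m, a, by simp [a.ne], rfl⟩).tail ⟨m, r, b, by simp [a.ne'], rfl⟩, by simp⟩
  · rintro k ⟨C, h⟩
    by_contra! c
    obtain ⟨r, hr⟩ : ∃ r, ∀ i, C i ≠ r := by
      by_contra! d
      have := Fintype.card_le_of_surjective C d
      simp at this; omega
    obtain ⟨x, -, hx⟩ := esc (by omega) C r hr
    exact safe (by omega) (h x) hx

end Pool.Agent.Results.MP_64c30f_co.Yes
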